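import Pool.Agent.H440Q.W.AllY
import Pool.Agent.H620R2.GaugeQ.Q7
import Pool.Agent.H620R2.Gauge2.Trans
import Pool.Agent.H620R2.Gauge2.V7

/-!
# How many oracles put `NP` inside `BQP` with a single question?

`IsBQPq 1 A L` says that the language `L` is decided, with probability of error at most `1/3`, by
polynomial-time uniform quantum circuits which ask the oracle `A` at most ONE question. For every
gauge `f` the following are equivalent: for every `ε > 0` there are infinitely many `N` with
`f N ≤ 2 ^ ((log N) ^ ε)`; the oracles `A` relative to which every language in `NP` is decided by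
quantum circuits with one question are a null set for `f`; the oracles `A` relative to which every
language in `PSPACE` is decided by quantum circuits with one question, the polynomial hierarchy is
infinite, and some language decided by quantum circuits with one question is outside the polynomial
hierarchy, are a null set for `f`.
-/

set_option autoImplicit false

namespace Pool.Agent.Results.MP_0f8dca_lc.OneQuestionThreshold

open Pool.Agent.NPC Pool.Agent.H620R2.Gauge Pool.Agent.H591R3.PHG Pool.Agent.H516R2.EQP
  Pool.Agent.H440Q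

theorem result (f : ℕ → ℝ) :
    (Null f {A : Oracle | ∀ L, IsNP A L → IsBQPq 1 A L} ↔
      ∀ ε : ℝ, 0 < ε → ∃ᶠ N : ℕ in Filter.atTop, f N ≤ 2 ^ (Real.logb 2 N) ^ ε) ∧
    (Null f {A : Oracle | (∀ L, IsPSPACE A L → IsBQPq 1 A L) ∧
        (∀ k : ℕ, ∃ L, IsSig A (k + 1) L ∧ ¬ IsSig A k L) ∧ ∃ L, IsBQPq 1 A L ∧ ¬ IsPH A L} ↔
      ∀ ε : ℝ, 0 < ε → ∃ᶠ N : ℕ in Filter.atTop, f N ≤ 2 ^ (Real.logb 2 N) ^ ε) := by
  refine ⟨⟨fun hn => ?_, fun hf => ?_⟩, W.all_YH f⟩
  · exact (W.all_YH f).1 (hn.mono fun A hA => fun L hL => hA.1 L hL.isPSPACE)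
  · refine nullQ hf _ ?_
    intro A h1
    exact (W.YH_isBQP (h1 _ (hitLang_np A))).withAdvice

end Pool.Agent.Results.MP_0f8dca_lc.OneQuestionThreshold
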