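import Pool.Agent.H530R3.Qu.Final

/-!
# How dense must a random oracle be for `NP` not to be contained in `BQP`?

Choose a random oracle `A`: each string `x` is put into `A` independently of the others with
probability `p |x|`, where the densities `p n` are arbitrary numbers in `[0, 1]`. Let
`lam p n = 2 ^ n * min (p n) (1 - p n)`.

* If the sum of `lam p n` over all `n` diverges then almost surely some language in `NP^A` is not in
  `BQP^A`, and its complement is not even in `QMA^A`.
* If the sum converges then almost surely `A` differs at finitely many strings only from the set of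
  all strings `x` with `p |x| > 1 / 2`, and `NP^A`, `BQP^A` and `QMA^A` are the same as relative to
  this fixed set.
* So `NP` is contained in `BQP` if and only if for all densities `p n` at most `1 / 2` the
  convergence of the sum decides whether almost surely `NP^A` is contained in `BQP^A`, if and only
  if `NP^A` is contained in `BQP^A` with positive probability for one such sequence of densities.

Proof of the first part. The test language asks whether one of `2 ^ m` disjoint blocks of `j`
strings of length about `n` is full of the less likely bit, where `2 ^ m * q ^ j` is of the order of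
`min (1, lam p n)`. A quantum verifier which accepts `with no full block` with some witness puts
little weight on most of the blocks (hybrid argument), so it still accepts when one of
them is made full. In a window of lengths in which the expected number of full blocks is between
`1 / 4` and `1 / 2`, the verifier is wrong somewhere with probability at least `1 / 18`, given
everything that happened at smaller lengths.
-/

namespace Pool.Agent.Results.MP_0f8dca_lc.OracleDensityThreshold

open MeasureTheory Pool.Agent.NPC
open Pool.Agent.H628R3.RO (IsNP)
open Pool.Agent.H620R2.Gauge (IsBQP)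
open Pool.Agent.H530R3.Thr (biasedOracle lam major)
open Pool.Agent.H530R3.Qu

theorem result :
    (∀ p : ℕ → unitInterval, ¬ Summable (lam p) → ∀ᵐ A ∂(biasedOracle p),
      ∃ L : Set (List Bool), IsNP A L ∧ ¬ IsBQP A L ∧ ¬ IsQMA A Lᶜ) ∧
    (∀ p : ℕ → unitInterval, Summable (lam p) → ∀ᵐ A ∂(biasedOracle p),
      {x : List Bool | A x ≠ major p x}.Finite ∧ ∀ L : Set (List Bool),
        (IsNP A L ↔ IsNP (major p) L) ∧ (IsBQP A L ↔ IsBQP (major p) L) ∧
          (IsQMA A L ↔ IsQMA (major p) L)) ∧
    ((∀ L : Set (List Bool), InNP L → InBQP L) ↔
      ∀ p : ℕ → unitInterval, (∀ n, (p n : ℝ) ≤ 1 / 2) →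
        ((∀ᵐ A ∂(biasedOracle p), ∀ L : Set (List Bool), IsNP A L → IsBQP A L) ↔
          Summable (lam p))) ∧
    ((∀ L : Set (List Bool), InNP L → InBQP L) ↔
      ∃ p : ℕ → unitInterval, (∀ n, (p n : ℝ) ≤ 1 / 2) ∧
        0 < biasedOracle p {A | ∀ L : Set (List Bool), IsNP A L → IsBQP A L}) :=
  ⟨divergentQ, convergentQ, bqp_iff, bqp_iff'⟩

end Pool.Agent.Results.MP_0f8dca_lc.OracleDensityThreshold
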