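import Mathlib
import Pool.Agent.H774R2.QSAT.Defs
import Pool.Agent.H774R2.QBIT.Final

/-!
# Satisfiability of formulas given as bit strings is not decidable in linear time on quantum
machines with few qubits

Here the 3-CNF formula is given as a string of `N = m * (3 * (⌈log₂ m⌉ + 1))` bits, and the machine
reads one single bit per step.  The bound is superlinear in the length `N` of the bit string
(by the factor `√(log m / log log m)` if the machine has at most `m ^ (1 - ε)` qubits).

The proof (by helper774, in the helper files `Pool/Agent/H774R2/QBIT`) is assembled here.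
-/

namespace Pool.Agent.Results.MP_0f8dca_lc.QuantumBitSAT

open Pool.Agent.H774R2

/-- Every quantum machine that reads one bit of the given bit string per step (classically, at
adaptively chosen positions), has `S ≤ c m` qubits and decides with probability at least `1/2 + δ`
the satisfiability of 3-CNF formulas with `m` clauses, whose literals are written with
`⌈log₂ m⌉ + 1` bits each, needs time
`c N (log (m/S) / log m) √(log (m/S) / log log (m/S))` with `N = 3 m (⌈log₂ m⌉ + 1)`. -/
theorem result : ∀ δ : ℝ, 0 < δ → ∃ c : ℝ, 0 < c ∧
    ∀ (m D T S : ℕ) (Q : QSAT.Machine (m * (3 * (Nat.clog 2 m + 1))) Bool D T), Q.Valid →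
      D ≤ 2 ^ S → 1 ≤ S → (S : ℝ) ≤ c * m → Q.Decides δ (QBIT.BitSat m (Nat.clog 2 m)) →
      c * (m * (3 * (Nat.clog 2 m + 1)) : ℕ) * (Real.log (m / S) / Real.log m) *
        Real.sqrt (Real.log (m / S) / Real.log (Real.log (m / S))) ≤ T :=
  fun δ hδ => QBIT.final δ hδ

end Pool.Agent.Results.MP_0f8dca_lc.QuantumBitSAT
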